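import Pool.Agent.helper48.AN.SpecD

/-!
# Project an, module EA2: a large minor
-/

namespace AN

open scoped Classical

noncomputable section

/-- a matrix of rank at least `r` has `r` linearly independent rows -/
theorem EA2_rows {K : Type} [Field K] {m n : Type} [Fintype m] [Fintype n] (A : Matrix m n K)
    (r : ℕ) (h : r ≤ A.rank) : ∃ f : Fin r → m, LinearIndependent K (fun i => A.row (f i)) := by
  obtain ⟨κ, b, hb, hsp, hli⟩ := exists_linearIndependent' K A.row
  have : Finite κ := Finite.of_injective b hb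
  have := Fintype.ofFinite κ
  have h1 := linearIndependent_iff_card_eq_finrank_span.mp hli
  rw [Set.finrank, hsp, ← Matrix.rank_eq_finrank_span_row] at h1
  have h2 : Fintype.card (Fin r) ≤ Fintype.card κ := by
    rw [Fintype.card_fin, h1]
    exact h
  obtain ⟨e⟩ := Function.Embedding.nonempty_of_card_le h2
  exact ⟨fun i => b (e i), hli.comp e e.injective⟩

/-- a matrix of rank at least `r` has a nonzero `r × r` minor -/
theorem EA2_minor {K : Type} [Field K] {m n : Type} [Fintype m] [Fintype n] (A : Matrix m n K)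
    (r : ℕ) (h : r ≤ A.rank) : ∃ (f : Fin r → m) (c : Fin r → n), (A.submatrix f c).det ≠ 0 := by
  obtain ⟨f, hf⟩ := EA2_rows A r h
  have h1 : (A.submatrix f id).rank = r := by
    have h2 : LinearIndependent K (A.submatrix f id).row := hf
    rw [h2.rank_matrix, Fintype.card_fin]
  have h3 : r ≤ (A.submatrix f id).transpose.rank := by
    rw [Matrix.rank_transpose, h1]
  obtain ⟨c, hc⟩ := EA2_rows (A.submatrix f id).transpose r h3
  refine ⟨f, c, ?_⟩
  have h4 : LinearIndependent K (A.submatrix f c).transpose.row := hc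
  have h5 := Matrix.linearIndependent_rows_iff_isUnit.mp h4
  rw [Matrix.isUnit_transpose] at h5
  exact ((Matrix.isUnit_iff_isUnit_det _).mp h5).ne_zero

theorem EA2_conv {K : Type} [Field K] {m n : Type} [Fintype m] [Fintype n] (A : Matrix m n K)
    (r : ℕ) (f : Fin r → m) (c : Fin r → n) (h : (A.submatrix f c).det ≠ 0) : r ≤ A.rank := by
  have h1 : IsUnit (A.submatrix f c) := (Matrix.isUnit_iff_isUnit_det _).mpr h.isUnit
  have h2 := Matrix.rank_of_isUnit _ h1
  rw [Fintype.card_fin] at h2
  calc r = (A.submatrix f c).rank := h2.symm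
    _ ≤ A.rank := Matrix.rank_submatrix_le A f c

theorem EA2_det_map {B K : Type} [CommRing B] [Field K] (φ : B →+* K) {m n : Type}
    (H : Matrix m n B) (r : ℕ) (f : Fin r → m) (c : Fin r → n) :
    φ (H.submatrix f c).det = ((H.map φ).submatrix f c).det := by
  rw [RingHom.map_det]
  rfl

theorem EA2 : EA2_stmt := by
  intro B K _ _ ψ g H h
  obtain ⟨f, c, hfc⟩ := EA2_minor (H.map ψ) (g - 1) (by omega)
  refine ⟨(H.submatrix f c).det, ?_, ?_⟩
  · rw [EA2_det_map]
    exact hfc
  · intro K' _ φ hφ
    rw [EA2_det_map] at hφ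
    have := EA2_conv (H.map φ) (g - 1) f c hφ
    omega

end

end AN
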