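import Pool.Agent.helper48.AN.SpecA

/-!
# Project an, module TH: the kernel of the Hasse-Witt matrix is at most one-dimensional
-/

namespace AN

open scoped Classical

noncomputable section

theorem TH_C_injective (K : Type) [Field K] : Function.Injective (LS.C : K →+* LS K) := by
  intro a b hab
  have h : cf (LS.C a) 0 = cf (LS.C b) 0 := by rw [hab]
  rw [cf_C, cf_C, if_pos rfl, if_pos rfl] at h
  exact h

theorem TH_charP (p : ℕ) (K : Type) [Field K] [CharP K p] : CharP (LS K) p :=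
  charP_of_injective_ringHom (TH_C_injective K) p

theorem TH_dec (hKE : KE_stmt) (p : ℕ) [Fact p.Prime] (K : Type) [Field K] [CharP K p] (g : ℕ)
    (γ : Fin g → ℕ) (a : ℕ → LS K) (hK : IsK γ a) (v : Fin g → K)
    (hv : (HW p γ a).mulVec v = 0) :
    ∃ α ∈ AA γ a, ∃ o ∈ PS K,
      ∑ j, LS.C (v j) * (mono (-(γ j : ℤ)) (1 : K)) ^ p = α + o := by
  choose α hα o ho hdec using hKE p K g γ a hK
  refine ⟨∑ j, v j • α j, Submodule.sum_mem _ fun j _ => Submodule.smul_mem _ _ (hα j),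
    ∑ j, v j • o j, Submodule.sum_mem _ fun j _ => Submodule.smul_mem _ _ (ho j), ?_⟩
  have h1 : ∀ j, LS.C (v j) * (mono (-(γ j : ℤ)) (1 : K)) ^ p
      = (∑ i, mono (-(γ i : ℤ)) (HW p γ a i j * v j)) + v j • α j + v j • o j := by
    intro j
    rw [hdec j, C_mul, smul_add, smul_add, Finset.smul_sum]
    congr 2
    refine Finset.sum_congr rfl fun i _ => ?_
    rw [smul_mono, mul_comm]
  rw [Finset.sum_congr rfl fun j _ => h1 j, Finset.sum_add_distrib, Finset.sum_add_distrib]
  have h2 : ∑ j, ∑ i, mono (-(γ i : ℤ)) (HW p γ a i j * v j) = 0 := by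
    rw [Finset.sum_comm]
    refine Finset.sum_eq_zero fun i _ => ?_
    ext n
    rw [cf_sum, cf_zero]
    by_cases hn : n = -(γ i : ℤ)
    · have h3 : ∀ j, cf (mono (-(γ i : ℤ)) (HW p γ a i j * v j)) n = HW p γ a i j * v j := by
        intro j
        rw [cf_mono, if_pos hn]
      rw [Finset.sum_congr rfl fun j _ => h3 j]
      have h4 := congrFun hv i
      simpa [Matrix.mulVec, dotProduct] using h4
    · refine Finset.sum_eq_zero fun j _ => ?_
      rw [cf_mono, if_neg hn]
  rw [h2, zero_add]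

theorem TH_dd (p : ℕ) (K : Type) [Field K] [CharP K p] (g : ℕ)
    (e : Fin g → LS K) (v : Fin g → K) :
    dd (∑ j, LS.C (v j) * (e j) ^ p) = 0 := by
  rw [map_sum]
  refine Finset.sum_eq_zero fun j _ => ?_
  rw [dd_mul, dd_C, dd_pow_char p (e j) p (dvd_refl p), zero_mul, mul_zero, add_zero]

theorem TH_dd_mem (p : ℕ) (K : Type) [Field K] [CharP K p] (g : ℕ)
    (e : Fin g → LS K) (v : Fin g → K) (α o : LS K) (ho : o ∈ PS K)
    (h : ∑ j, LS.C (v j) * (e j) ^ p = α + o) : dd α ∈ PS K := by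
  have h1 := TH_dd p K g e v
  rw [h, map_add] at h1
  rw [eq_neg_of_add_eq_zero_left h1]
  exact Submodule.neg_mem _ (dd_mem_PS ho)

theorem TH (hTG : TG_stmt) (hCE : CE_stmt) (hKE : KE_stmt) : TH_stmt := by
  intro p _ K _ _ g N γ a ν τ θ M S hH hx
  obtain ⟨x, hx0, hx1⟩ := hx
  have hp0 : p ≠ 0 := (Fact.out : p.Prime).ne_zero
  have := TH_charP p K
  have : ExpChar (LS K) p := ExpChar.prime Fact.out
  have hK := hH.isK
  obtain ⟨g₀, hg₀, o₀, ho₀, hgo⟩ := TH_dec hKE p K g γ a hK (frV p x) hx1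
  have hf : (∑ j, LS.C (x j) * mono (-(γ j : ℤ)) (1 : K)) ^ p = g₀ + o₀ := by
    rw [← hgo, sum_pow_char]
    refine Finset.sum_congr rfl fun j _ => ?_
    rw [mul_pow, ← map_pow]
    rfl
  have hw : dd g₀ ≠ 0 := by
    intro h0
    have h1 := hCE p K g γ a hK (frV p x) g₀ hg₀ o₀ ho₀ hgo h0
    apply hx0
    funext j
    have h2 := congrFun h1 j
    exact pow_eq_zero_iff hp0 |>.mp h2
  -- the kernel
  set H := HW p γ a with hHdef
  have key : ∀ v v' : Fin g → K, H.mulVec v = 0 → H.mulVec v' = 0 → v ≠ 0 →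
      ∃ c : K, v' = c • v := by
    intro v v' hv hv' hv0
    obtain ⟨α, hα, o, ho, hvo⟩ := TH_dec hKE p K g γ a hK v hv
    obtain ⟨α', hα', o', ho', hvo'⟩ := TH_dec hKE p K g γ a hK v' hv'
    obtain ⟨c, hc⟩ := hTG p K g N γ a ν τ θ M S hH g₀ hg₀ o₀ ho₀ _ hf hw α hα
      (TH_dd_mem p K g _ v α o ho hvo)
    obtain ⟨c', hc'⟩ := hTG p K g N γ a ν τ θ M S hH g₀ hg₀ o₀ ho₀ _ hf hw α' hα'
      (TH_dd_mem p K g _ v' α' o' ho' hvo')
    have hc0 : c ≠ 0 := by
      intro h0
      apply hv0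
      apply hCE p K g γ a hK v α hα o ho hvo
      rw [hc, h0, map_zero, zero_mul]
    have hz : c • v' - c' • v = 0 := by
      apply hCE p K g γ a hK (c • v' - c' • v) (c • α' - c' • α)
        (Submodule.sub_mem _ (Submodule.smul_mem _ _ hα') (Submodule.smul_mem _ _ hα))
        (c • o' - c' • o)
        (Submodule.sub_mem _ (Submodule.smul_mem _ _ ho') (Submodule.smul_mem _ _ ho))
      · have h1 : ∀ j, LS.C ((c • v' - c' • v) j) * (mono (-(γ j : ℤ)) (1 : K)) ^ p
            = c • (LS.C (v' j) * (mono (-(γ j : ℤ)) (1 : K)) ^ p)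
              - c' • (LS.C (v j) * (mono (-(γ j : ℤ)) (1 : K)) ^ p) := by
          intro j
          rw [← C_mul c, ← C_mul c', Pi.sub_apply, Pi.smul_apply, Pi.smul_apply, smul_eq_mul,
            smul_eq_mul, map_sub, map_mul, map_mul]
          ring
        rw [Finset.sum_congr rfl fun j _ => h1 j, Finset.sum_sub_distrib, ← Finset.smul_sum,
          ← Finset.smul_sum, hvo, hvo', smul_add, smul_add]
        abel
      · rw [map_sub, map_smul, map_smul, hc, hc', ← C_mul c, ← C_mul c']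
        ring
    refine ⟨c⁻¹ * c', ?_⟩
    have h2 : c • v' = c' • v := sub_eq_zero.mp hz
    rw [mul_smul, ← h2, smul_smul, inv_mul_cancel₀ hc0, one_smul]
  -- rank
  have hrn := LinearMap.finrank_range_add_finrank_ker H.mulVecLin
  rw [Module.finrank_fin_fun] at hrn
  have hker : Module.finrank K (LinearMap.ker H.mulVecLin) ≤ 1 := by
    have hvp : H.mulVec (frV p x) = 0 := hx1
    have hfx : frV p x ≠ 0 := by
      intro h0
      apply hx0
      funext j
      exact pow_eq_zero_iff hp0 |>.mp (congrFun h0 j)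
    refine finrank_le_one (⟨frV p x, by simpa [LinearMap.mem_ker] using hvp⟩ :
      LinearMap.ker H.mulVecLin) ?_
    rintro ⟨w, hw'⟩
    have hw'' : H.mulVec w = 0 := by simpa [LinearMap.mem_ker] using hw'
    obtain ⟨c, hc⟩ := key _ w hvp hw'' hfx
    exact ⟨c, Subtype.ext hc.symm⟩
  have hrk : H.rank = Module.finrank K (LinearMap.range H.mulVecLin) := rfl
  omega

end

end AN
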